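import Mathlib

/-!
# Support-preserving convolution endomorphisms of the measures on `ℤ^d` are Boltzmann reweightings

Fix an injective additive map `w : ℤ^d → ℝ` which is positive on the basis vectors. For a
polynomial `p = 1 + (terms of positive w)` with nonnegative coefficients consider the coefficients
of `Φ p` relative to the constant one. If `p` and `p'` agree up to the level `L` of `w`, then there
is a (signed) polynomial `g` for which both `p g` and `p' g` have nonnegative coefficients and no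
coefficient at the levels `0 < w ≤ L`; from `p' (p g) = (p' g) p` and the preservation of the
supports it follows that `Φ p` and `Φ p'` agree up to the level `L`. Comparing `p` with
`q (1 + r x^v)`, where `q` is the part of `p` strictly below the level of `v`, one sees that the
relative coefficient of `Φ p` at `v` is `ρ_v (r)`, a function of the coefficient `r` of `p` at `v`
only. It is additive in `r`, hence `ρ_v (r) = c_v r`, and `c_{u+v} = c_u c_v`.
-/

set_option autoImplicit false

namespace Pool.Agent.Results.MP_847c7e_pr.Boltzmann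

open AddMonoidAlgebra

/-- finitely supported probability measures on `ℤ^d` -/
structure FinProb (d : ℕ) where
  /-- the masses -/
  f : (Fin d → ℤ) →₀ ℝ
  nonneg : ∀ x, 0 ≤ f x
  total : (f.sum fun _ m => m) = 1

/-- `ρ = μ * ν` (convolution): `ρ(x) = ∑_y μ(y) ν(x - y)` -/
def IsConv {d : ℕ} (μ ν ρ : FinProb d) : Prop :=
  ∀ x, ρ.f x = μ.f.sum fun y m => m * ν.f (x - y)

/-- `Φ` is an endomorphism of the convolution semigroup -/
def IsEndo {d : ℕ} (Φ : FinProb d → FinProb d) : Prop :=
  ∀ μ ν ρ, IsConv μ ν ρ → IsConv (Φ μ) (Φ ν) (Φ ρ)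

/-- `Φ` preserves the supports -/
def IsSuppPres {d : ℕ} (Φ : FinProb d → FinProb d) : Prop :=
  ∀ μ, (Φ μ).f.support = μ.f.support

/-- `Φ = Φ_β` is the Boltzmann reweighting with parameter `β` -/
def IsBoltzmann {d : ℕ} (β : Fin d → ℝ) (Φ : FinProb d → FinProb d) : Prop :=
  ∀ μ x, (Φ μ).f x = μ.f x * Real.exp (-∑ i, β i * x i) /
    (μ.f.sum fun y m => m * Real.exp (-∑ i, β i * y i))

section general

variable {G : Type} [AddCommGroup G]

/-- nonnegative coefficients -/
def NN (p : ℝ[G]) : Prop := ∀ x, 0 ≤ p.coeff x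

theorem NN.add {p q : ℝ[G]} (hp : NN p) (hq : NN q) : NN (p + q) := fun x => by
  rw [coeff_add, Finsupp.add_apply]; exact add_nonneg (hp x) (hq x)

theorem NN.mul {p q : ℝ[G]} (hp : NN p) (hq : NN q) : NN (p * q) := fun x => by
  rw [coeff_mul_apply_left]
  exact Finsupp.sum_nonneg fun y _ => mul_nonneg (hp y) (hq _)

theorem NN.one : NN (1 : ℝ[G]) := fun x => by
  classical
  rw [one_def, coeff_single, Finsupp.single_apply]; split_ifs <;> norm_num

theorem NN.pow {p : ℝ[G]} (hp : NN p) (n : ℕ) : NN (p ^ n) := by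
  induction n with
  | zero => rw [pow_zero]; exact NN.one
  | succ n ih => rw [pow_succ]; exact ih.mul hp

theorem exists_of_mul {p q : ℝ[G]} {x : G} (h : (p * q).coeff x ≠ 0) :
    ∃ y, p.coeff y ≠ 0 ∧ q.coeff (x - y) ≠ 0 := by
  by_contra hcon
  push Not at hcon
  apply h
  rw [coeff_mul_apply_left, Finsupp.sum]
  apply Finset.sum_eq_zero
  intro y hy
  have h1 := hcon y (Finsupp.mem_support_iff.mp hy)
  rw [show -y + x = x - y by abel, h1, mul_zero]

variable (w : G →+ ℝ)

/-- all terms have level at least `a` -/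
def Ge (a : ℝ) (p : ℝ[G]) : Prop := ∀ x, p.coeff x ≠ 0 → a ≤ w x

/-- all terms have level larger than `a` -/
def Gt (a : ℝ) (p : ℝ[G]) : Prop := ∀ x, p.coeff x ≠ 0 → a < w x

variable {w}

theorem Ge.mul {a b : ℝ} {p q : ℝ[G]} (hp : Ge w a p) (hq : Ge w b q) : Ge w (a + b) (p * q) := by
  intro x hx
  obtain ⟨y, h1, h2⟩ := exists_of_mul hx
  have h3 := hp y h1
  have h4 := hq _ h2
  rw [map_sub] at h4
  linarith

theorem Gt.mul {a b : ℝ} {p q : ℝ[G]} (hp : Gt w a p) (hq : Ge w b q) : Gt w (a + b) (p * q) := by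
  intro x hx
  obtain ⟨y, h1, h2⟩ := exists_of_mul hx
  have h3 := hp y h1
  have h4 := hq _ h2
  rw [map_sub] at h4
  linarith

theorem Gt.add {a : ℝ} {p q : ℝ[G]} (hp : Gt w a p) (hq : Gt w a q) : Gt w a (p + q) := by
  intro x hx
  rw [coeff_add, Finsupp.add_apply] at hx
  by_cases h : p.coeff x = 0
  · apply hq x; intro h2; apply hx; rw [h, h2, add_zero]
  · exact hp x h

theorem Ge.add {a : ℝ} {p q : ℝ[G]} (hp : Ge w a p) (hq : Ge w a q) : Ge w a (p + q) := by
  intro x hx
  rw [coeff_add, Finsupp.add_apply] at hx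
  by_cases h : p.coeff x = 0
  · apply hq x; intro h2; apply hx; rw [h, h2, add_zero]
  · exact hp x h

theorem Ge.neg {a : ℝ} {p : ℝ[G]} (hp : Ge w a p) : Ge w a (-p) := by
  intro x hx
  apply hp x
  intro h; apply hx
  rw [coeff_neg, Finsupp.neg_apply, h, neg_zero]

theorem Ge.one : Ge w 0 (1 : ℝ[G]) := by
  classical
  intro x hx
  rw [one_def, coeff_single, Finsupp.single_apply] at hx
  split_ifs at hx with h
  · rw [← h, map_zero]
  · exact absurd rfl hx

theorem Ge.pow {p : ℝ[G]} {a : ℝ} (hp : Ge w a p) (n : ℕ) : Ge w (n * a) (p ^ n) := by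
  induction n with
  | zero => rw [pow_zero]; simpa using Ge.one
  | succ n ih =>
    rw [pow_succ]
    have := ih.mul hp
    convert this using 1
    push_cast; ring

theorem Ge.mono {a b : ℝ} {p : ℝ[G]} (hp : Ge w a p) (h : b ≤ a) : Ge w b p :=
  fun x hx => h.trans (hp x hx)

theorem Ge.gt {a b : ℝ} {p : ℝ[G]} (hp : Ge w a p) (h : b < a) : Gt w b p :=
  fun x hx => h.trans_le (hp x hx)

theorem Gt.ge {a : ℝ} {p : ℝ[G]} (hp : Gt w a p) : Ge w a p :=
  fun x hx => (hp x hx).le

theorem Gt.exists_ge {p : ℝ[G]} (hp : Gt w 0 p) : ∃ δ : ℝ, 0 < δ ∧ Ge w δ p := by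
  by_cases hne : p.coeff.support.Nonempty
  · obtain ⟨m, hm, hmin⟩ := p.coeff.support.exists_min_image (fun x => w x) hne
    exact ⟨w m, hp m (Finsupp.mem_support_iff.mp hm),
      fun x hx => hmin x (Finsupp.mem_support_iff.mpr hx)⟩
  · refine ⟨1, one_pos, fun x hx => ?_⟩
    exact absurd ⟨x, Finsupp.mem_support_iff.mpr hx⟩ hne

variable (w) in
/-- polynomials `1 + (terms of positive level)` with nonnegative coefficients -/
structure U (p : ℝ[G]) : Prop where
  nn : NN p
  one : p.coeff 0 = 1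
  pos : ∀ x, p.coeff x ≠ 0 → x ≠ 0 → 0 < w x

theorem U.ge {p : ℝ[G]} (hp : U w p) : Ge w 0 p := by
  intro x hx
  by_cases h : x = 0
  · rw [h, map_zero]
  · exact (hp.pos x hx h).le

theorem U.ne_zero {p : ℝ[G]} (hp : U w p) : p ≠ 0 := by
  intro h
  have := hp.one
  rw [h] at this
  simp at this

/-- the product at low levels -/
theorem low {p q : ℝ[G]} {L : ℝ} (hp : Ge w 0 p)
    (hq : ∀ x, q.coeff x ≠ 0 → x = 0 ∨ L < w x) {x : G} (hx : w x ≤ L) :
    (p * q).coeff x = p.coeff x * q.coeff 0 := by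
  classical
  rw [coeff_mul_apply_right, Finsupp.sum]
  rw [Finset.sum_eq_single 0]
  · rw [show x + -0 = x by abel]
  · intro y hy hy0
    have h1 := hq y (Finsupp.mem_support_iff.mp hy)
    have h2 : p.coeff (x + -y) = 0 := by
      by_contra h
      have h3 := hp _ h
      rw [map_add, map_neg] at h3
      rcases h1 with h1 | h1
      · exact hy0 h1
      · linarith
    rw [h2, zero_mul]
  · intro h
    rw [Finsupp.notMem_support_iff] at h
    rw [h, mul_zero]

theorem coeff_one_zero' : (1 : ℝ[G]).coeff 0 = 1 := by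
  rw [one_def, coeff_single, Finsupp.single_eq_same]

theorem coeff_one_ne {x : G} (h : x ≠ 0) : (1 : ℝ[G]).coeff x = 0 := by
  rw [one_def, coeff_single, Finsupp.single_eq_of_ne h]

theorem U.mul {p q : ℝ[G]} (hp : U w p) (hq : U w q) : U w (p * q) := by
  refine ⟨hp.nn.mul hq.nn, ?_, ?_⟩
  · rw [low (L := 0) hp.ge (fun x hx => ?_) (by rw [map_zero]), hp.one, hq.one, one_mul]
    by_cases h : x = 0
    · exact Or.inl h
    · exact Or.inr (hq.pos x hx h)
  · intro x hx hx0
    obtain ⟨y, h1, h2⟩ := exists_of_mul hx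
    by_cases hy : y = 0
    · rw [hy, sub_zero] at h2
      exact hq.pos x h2 hx0
    · have h3 := hp.pos y h1 hy
      have h4 := hq.ge _ h2
      rw [map_sub] at h4
      linarith

/-- the key construction -/
theorem exists_g {p p' : ℝ[G]} (hp : U w p) (hp' : U w p') {L : ℝ} (hL : 0 ≤ L)
    (h : ∀ x, w x ≤ L → p.coeff x = p'.coeff x) :
    ∃ g : ℝ[G], NN (p * g) ∧ NN (p' * g) ∧ (p * g).coeff 0 = 1 ∧ (p' * g).coeff 0 = 1 ∧
      (∀ x, (p * g).coeff x ≠ 0 → x = 0 ∨ L < w x) ∧
      (∀ x, (p' * g).coeff x ≠ 0 → x = 0 ∨ L < w x) := by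
  classical
  set m : ℝ[G] := p - 1 with hm
  have hmc : ∀ x, m.coeff x = if x = 0 then 0 else p.coeff x := by
    intro x
    rw [hm, coeff_sub, Finsupp.sub_apply]
    split_ifs with hx
    · rw [hx, hp.one, coeff_one_zero', sub_self]
    · rw [coeff_one_ne hx, sub_zero]
  have hmN : NN m := by
    intro x
    rw [hmc]
    split_ifs
    · exact le_refl _
    · exact hp.nn x
  have hmG : Gt w 0 m := by
    intro x hx
    rw [hmc] at hx
    split_ifs at hx with h0
    · exact absurd rfl hx
    · exact hp.pos x hx h0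
  obtain ⟨δ, hδ, hmδ⟩ := hmG.exists_ge
  obtain ⟨k, hk⟩ := exists_nat_gt (L / δ)
  have hk' : L < k * δ := by rwa [div_lt_iff₀ hδ] at hk
  set N : ℕ := 2 * k + 1 with hN
  have hNodd : Odd N := ⟨k, rfl⟩
  have hmNL : Gt w L (m ^ N) := by
    refine (hmδ.pow N).gt (hk'.trans_le ?_)
    apply mul_le_mul_of_nonneg_right _ hδ.le
    rw [hN]; push_cast
    have : (0 : ℝ) ≤ k := Nat.cast_nonneg k
    linarith
  set g0 : ℝ[G] := ∑ j ∈ Finset.range N, (-m) ^ j with hg0
  have hpg0 : p * g0 = 1 + m ^ N := by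
    have h1 := mul_neg_geom_sum (-m) N
    rw [hNodd.neg_pow] at h1
    rw [hg0, show p = 1 - -m by rw [hm]; abel, h1]
    abel
  have hg0G : Ge w 0 g0 := by
    have hs : ∀ s : Finset ℕ, Ge w 0 (∑ j ∈ s, (-m) ^ j) := by
      intro s
      induction s using Finset.induction_on with
      | empty => intro x hx; simp at hx
      | insert a s ha ih =>
        rw [Finset.sum_insert ha]
        refine Ge.add ?_ ih
        have := (hmG.ge.neg).pow a
        simpa using this
    exact hs _
  set T : ℝ[G] := p' * g0 - 1 with hT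
  have hTe : T = (p' - p) * g0 + m ^ N := by
    rw [hT, sub_mul, hpg0]; abel
  have hTG : Gt w L T := by
    rw [hTe]
    refine Gt.add ?_ hmNL
    have h1 : Gt w L (p' - p) := by
      intro x hx
      by_contra hcon
      push Not at hcon
      apply hx
      rw [coeff_sub, Finsupp.sub_apply, h x hcon, sub_self]
    have := h1.mul hg0G
    rwa [add_zero] at this
  set K : ℝ[G] := ofCoeff (T.coeff.mapRange abs abs_zero) with hK
  have hKc : ∀ x, K.coeff x = |T.coeff x| := fun x => by
    rw [hK, coeff_ofCoeff, Finsupp.mapRange_apply]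
  have hKN : NN K := fun x => by rw [hKc]; exact abs_nonneg _
  have hKG : Gt w L K := by
    intro x hx
    apply hTG x
    intro h0
    apply hx
    rw [hKc, h0, abs_zero]
  have hTK : NN (T + K) := by
    intro x
    rw [coeff_add, Finsupp.add_apply, hKc]
    linarith [neg_abs_le (T.coeff x)]
  have hp'1 : NN (p' - 1) := by
    intro x
    rw [coeff_sub, Finsupp.sub_apply]
    by_cases hx : x = 0
    · rw [hx, hp'.one, coeff_one_zero', sub_self]
    · rw [coeff_one_ne hx, sub_zero]; exact hp'.nn x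
  have e1 : p * (g0 + K) = 1 + (m ^ N + K * p) := by
    rw [mul_add, hpg0, mul_comm p K]; abel
  have e2 : p' * (g0 + K) = 1 + ((T + K) + K * (p' - 1)) := by
    rw [mul_add, mul_sub, mul_one, hT, mul_comm p' K]; abel
  have key : ∀ q : ℝ[G], NN q → Gt w L q → NN (1 + q) ∧ (1 + q).coeff 0 = 1 ∧
      (∀ x, (1 + q).coeff x ≠ 0 → x = 0 ∨ L < w x) := by
    intro q hqN hqG
    refine ⟨NN.one.add hqN, ?_, ?_⟩
    · rw [coeff_add, Finsupp.add_apply, coeff_one_zero']
      have : q.coeff 0 = 0 := by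
        by_contra hcon
        have := hqG 0 hcon
        rw [map_zero] at this
        linarith
      rw [this, add_zero]
    · intro x hx
      by_cases h0 : x = 0
      · exact Or.inl h0
      · right
        apply hqG x
        intro h1
        apply hx
        rw [coeff_add, Finsupp.add_apply, coeff_one_ne h0, h1, add_zero]
  have k1 := key _ ((hmN.pow N).add (hKN.mul hp.nn))
    (hmNL.add (by have := hKG.mul hp.ge; rwa [add_zero] at this))
  have hp'G : Ge w 0 (p' - 1) := by
    intro x hx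
    rw [coeff_sub, Finsupp.sub_apply] at hx
    by_cases h0 : x = 0
    · rw [h0, map_zero]
    · rw [coeff_one_ne h0, sub_zero] at hx
      exact (hp'.pos x hx h0).le
  have k2 := key _ (hTK.add (hKN.mul hp'1))
    ((hTG.add hKG).add (by have := hKG.mul hp'G; rwa [add_zero] at this))
  rw [← e1] at k1
  rw [← e2] at k2
  exact ⟨g0 + K, k1.1, k2.1, k1.2.1, k2.2.1, k1.2.2, k2.2.2⟩

/-- `p` has nonnegative coefficients and is not zero -/
def Pos (p : ℝ[G]) : Prop := NN p ∧ p ≠ 0

theorem U.toPos {p : ℝ[G]} (hp : U w p) : Pos p := ⟨hp.nn, hp.ne_zero⟩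

/-- a multiplicative, support-preserving map on the polynomials with nonnegative coefficients -/
structure Good (F : ℝ[G] → ℝ[G]) : Prop where
  mul : ∀ p q, Pos p → Pos q → F (p * q) = F p * F q
  nn : ∀ p, Pos p → NN (F p)
  supp : ∀ p, Pos p → ∀ x, (F p).coeff x ≠ 0 ↔ p.coeff x ≠ 0

variable {F : ℝ[G] → ℝ[G]}

theorem Good.zero_pos (hF : Good F) {p : ℝ[G]} (hp : Pos p) (h : 0 < p.coeff 0) :
    0 < (F p).coeff 0 :=
  lt_of_le_of_ne (hF.nn p hp 0) ((hF.supp p hp 0).mpr h.ne').symm

theorem trunc (hF : Good F) {p p' : ℝ[G]} (hp : U w p) (hp' : U w p') {L : ℝ} (hL : 0 ≤ L)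
    (h : ∀ x, w x ≤ L → p.coeff x = p'.coeff x) {x : G} (hx : w x ≤ L) :
    (F p).coeff x / (F p).coeff 0 = (F p').coeff x / (F p').coeff 0 := by
  obtain ⟨g, hA, hB, hA1, hB1, hAs, hBs⟩ := exists_g hp hp' hL h
  have hAP : Pos (p * g) := ⟨hA, by intro h0; rw [h0] at hA1; simp at hA1⟩
  have hBP : Pos (p' * g) := ⟨hB, by intro h0; rw [h0] at hB1; simp at hB1⟩
  have hmul : F p' * F (p * g) = F p * F (p' * g) := by
    rw [← hF.mul _ _ hp'.toPos hAP, ← hF.mul _ _ hp.toPos hBP]
    congr 1
    ring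
  have hFp : Ge w 0 (F p) := fun y hy => hp.ge y ((hF.supp p hp.toPos y).mp hy)
  have hFp' : Ge w 0 (F p') := fun y hy => hp'.ge y ((hF.supp p' hp'.toPos y).mp hy)
  have hFA : ∀ y, (F (p * g)).coeff y ≠ 0 → y = 0 ∨ L < w y :=
    fun y hy => hAs y ((hF.supp _ hAP y).mp hy)
  have hFB : ∀ y, (F (p' * g)).coeff y ≠ 0 → y = 0 ∨ L < w y :=
    fun y hy => hBs y ((hF.supp _ hBP y).mp hy)
  have key : ∀ y, w y ≤ L → (F p').coeff y * (F (p * g)).coeff 0 =
      (F p).coeff y * (F (p' * g)).coeff 0 := by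
    intro y hy
    rw [← low hFp' hFA hy, ← low hFp hFB hy, hmul]
  have a0 : 0 < (F (p * g)).coeff 0 := hF.zero_pos hAP (by rw [hA1]; norm_num)
  have b0 : 0 < (F (p' * g)).coeff 0 := hF.zero_pos hBP (by rw [hB1]; norm_num)
  have c0 : 0 < (F p).coeff 0 := hF.zero_pos hp.toPos (by rw [hp.one]; norm_num)
  have d0 : 0 < (F p').coeff 0 := hF.zero_pos hp'.toPos (by rw [hp'.one]; norm_num)
  have k1 := key x hx
  have k2 := key 0 (by rw [map_zero]; exact hL)
  rw [div_eq_div_iff c0.ne' d0.ne']
  have e : ((F p).coeff x * (F p').coeff 0 - (F p').coeff x * (F p).coeff 0) *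
      ((F (p * g)).coeff 0 * (F (p' * g)).coeff 0) = 0 := by
    linear_combination (F p).coeff x * (F (p' * g)).coeff 0 * k2 -
      (F p).coeff 0 * (F (p' * g)).coeff 0 * k1
  rcases mul_eq_zero.mp e with e | e
  · linarith
  · exact absurd e (mul_pos a0 b0).ne'

/-- relative coefficients of `F p` -/
noncomputable def R (F : ℝ[G] → ℝ[G]) (p : ℝ[G]) (x : G) : ℝ := (F p).coeff x / (F p).coeff 0

/-- the binomial `1 + r x^v` -/
noncomputable def E (v : G) (r : ℝ) : ℝ[G] := 1 + single v r

theorem E_coeff [DecidableEq G] (v : G) (r : ℝ) (x : G) :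
    (E v r).coeff x = (if 0 = x then 1 else 0) + (if v = x then r else 0) := by
  rw [E, coeff_add, Finsupp.add_apply, one_def, coeff_single, coeff_single,
    Finsupp.single_apply, Finsupp.single_apply]

theorem E_U {v : G} (hv : 0 < w v) {r : ℝ} (hr : 0 ≤ r) : U w (E v r) := by
  classical
  have hv0 : v ≠ 0 := by rintro rfl; rw [map_zero] at hv; exact lt_irrefl _ hv
  refine ⟨?_, ?_, ?_⟩
  · intro x
    rw [E_coeff]
    split_ifs <;> linarith
  · rw [E_coeff, if_pos rfl, if_neg hv0, add_zero]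
  · intro x hx hx0
    rw [E_coeff, if_neg (Ne.symm hx0), zero_add] at hx
    split_ifs at hx with h
    · rw [← h]; exact hv
    · exact absurd rfl hx

theorem mul_E_coeff (q : ℝ[G]) (v : G) (r : ℝ) (x : G) :
    (q * E v r).coeff x = q.coeff x + q.coeff (x - v) * r := by
  rw [E, mul_add, mul_one, coeff_add, Finsupp.add_apply, coeff_mul_single_apply, sub_eq_add_neg]

theorem R_zero (hF : Good F) {p : ℝ[G]} (hp : U w p) : R F p 0 = 1 := by
  rw [R, div_self]
  exact (hF.zero_pos hp.toPos (by rw [hp.one]; norm_num)).ne'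

theorem R_of_zero (hF : Good F) {p : ℝ[G]} (hp : U w p) {x : G} (h : p.coeff x = 0) :
    R F p x = 0 := by
  have : (F p).coeff x = 0 := by
    by_contra hc
    exact (hF.supp p hp.toPos x).mp hc h
  rw [R, this, zero_div]

theorem R_nonneg (hF : Good F) {p : ℝ[G]} (hp : U w p) (x : G) : 0 ≤ R F p x :=
  div_nonneg (hF.nn p hp.toPos x) (hF.nn p hp.toPos 0)

theorem R_pos (hF : Good F) {p : ℝ[G]} (hp : U w p) {x : G} (h : p.coeff x ≠ 0) :
    0 < R F p x := by
  apply div_pos
  · exact lt_of_le_of_ne (hF.nn p hp.toPos x) ((hF.supp p hp.toPos x).mpr h).symm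
  · exact hF.zero_pos hp.toPos (by rw [hp.one]; norm_num)

theorem FE_eq (hF : Good F) {v : G} (hv : 0 < w v) {r : ℝ} (hr : 0 ≤ r) :
    F (E v r) = (F (E v r)).coeff 0 • E v (R F (E v r) v) := by
  classical
  have hU := E_U hv hr
  have h0 := hF.zero_pos hU.toPos (by rw [hU.one]; norm_num)
  have hv0 : v ≠ 0 := by rintro rfl; rw [map_zero] at hv; exact lt_irrefl _ hv
  ext x
  rw [coeff_smul, Finsupp.smul_apply, smul_eq_mul, E_coeff]
  by_cases hx0 : 0 = x
  · rw [if_pos hx0, if_neg (by rintro rfl; exact hv0 hx0.symm), ← hx0]; ring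
  · rw [if_neg hx0]
    by_cases hxv : v = x
    · rw [if_pos hxv, ← hxv, R]
      field_simp
      ring
    · rw [if_neg hxv, add_zero, mul_zero]
      by_contra hc
      have := (hF.supp _ hU.toPos x).mp hc
      rw [E_coeff, if_neg hx0, if_neg hxv, add_zero] at this
      exact this rfl

theorem R_mul_E (hF : Good F) {q : ℝ[G]} (hq : U w q) {v : G} (hv : 0 < w v) {r : ℝ}
    (hr : 0 ≤ r) (x : G) :
    R F (q * E v r) x = R F q x + R F q (x - v) * R F (E v r) v := by
  have hU := E_U hv hr
  have h0 := hF.zero_pos hU.toPos (by rw [hU.one]; norm_num)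
  have hq0 := hF.zero_pos hq.toPos (by rw [hq.one]; norm_num)
  have h1 : F (q * E v r) = (F (E v r)).coeff 0 • (F q * E v (R F (E v r) v)) := by
    rw [hF.mul _ _ hq.toPos hU.toPos, ← mul_smul_comm, ← FE_eq hF hv hr]
  have h2 : ∀ y, (F (q * E v r)).coeff y = (F (E v r)).coeff 0 *
      ((F q).coeff y + (F q).coeff (y - v) * R F (E v r) v) := by
    intro y
    rw [h1, coeff_smul, Finsupp.smul_apply, smul_eq_mul, mul_E_coeff]
  have h3 : (F q).coeff (0 - v) = 0 := by
    by_contra hc
    have h4 := hq.ge _ ((hF.supp q hq.toPos _).mp hc)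
    rw [zero_sub, map_neg] at h4
    linarith
  have h4 : (F (q * E v r)).coeff 0 = (F (E v r)).coeff 0 * (F q).coeff 0 := by
    rw [h2, h3]; ring
  rw [R, h4, h2]
  simp only [R]
  field_simp

/-- the relative coefficient at `v` depends on the coefficient at `v` only -/
theorem R_eq (hw : Function.Injective w) (hF : Good F) {p : ℝ[G]} (hp : U w p) {v : G}
    (hv : 0 < w v) : R F p v = R F (E v (p.coeff v)) v := by
  classical
  set r := p.coeff v with hr
  have hr0 : 0 ≤ r := hp.nn v
  have hv0 : v ≠ 0 := by rintro rfl; rw [map_zero] at hv; exact lt_irrefl _ hv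
  let q : ℝ[G] := ofCoeff (p.coeff.filter fun x => w x < w v)
  have hqc : ∀ x, q.coeff x = if w x < w v then p.coeff x else 0 := fun x => by
    show (p.coeff.filter fun x => w x < w v) x = _
    rw [Finsupp.filter_apply]
  have hq : U w q := by
    refine ⟨?_, ?_, ?_⟩
    · intro x; rw [hqc]; split_ifs
      · exact hp.nn x
      · exact le_refl _
    · rw [hqc, map_zero, if_pos hv]; exact hp.one
    · intro x hx hx0
      rw [hqc] at hx
      split_ifs at hx with h
      · exact hp.pos x hx hx0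
      · exact absurd rfl hx
  have hqv : q.coeff v = 0 := by rw [hqc, if_neg (lt_irrefl _)]
  have hagree : ∀ x, w x ≤ w v → p.coeff x = (q * E v r).coeff x := by
    intro x hx
    rw [mul_E_coeff]
    rcases eq_or_lt_of_le hx with h | h
    · have hxv : x = v := hw h
      rw [hxv, hqv, sub_self, hq.one, zero_add, one_mul]
    · have h1 : q.coeff (x - v) = 0 := by
        by_contra hc
        have := hq.ge _ hc
        rw [map_sub] at this
        linarith
      rw [h1, zero_mul, add_zero, hqc, if_pos h]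
  have h1 := trunc hF hp (hq.mul (E_U hv hr0)) hv.le hagree (le_refl (w v))
  change R F p v = R F (q * E v r) v at h1
  rw [h1, R_mul_E hF hq hv hr0, R_of_zero hF hq hqv, sub_self, R_zero hF hq, zero_add, one_mul]

theorem rho_add (hw : Function.Injective w) (hF : Good F) {v : G} (hv : 0 < w v) {r s : ℝ}
    (hr : 0 ≤ r) (hs : 0 ≤ s) :
    R F (E v (r + s)) v = R F (E v r) v + R F (E v s) v := by
  classical
  have hv0 : v ≠ 0 := by rintro rfl; rw [map_zero] at hv; exact lt_irrefl _ hv
  have h1 := R_mul_E hF (E_U hv hr) hv hs v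
  rw [sub_self, R_zero hF (E_U hv hr), one_mul] at h1
  have h2 := R_eq hw hF ((E_U hv hr).mul (E_U hv hs)) hv
  rw [mul_E_coeff, sub_self, (E_U hv hr).one, E_coeff, if_neg (Ne.symm hv0), if_pos rfl, zero_add,
    one_mul] at h2
  rw [← h2, h1]

theorem rho_mul (hw : Function.Injective w) (hF : Good F) {u v : G} (hu : 0 < w u)
    (hv : 0 < w v) {r s : ℝ} (hr : 0 ≤ r) (hs : 0 ≤ s) :
    R F (E (u + v) (r * s)) (u + v) = R F (E u r) u * R F (E v s) v := by
  classical
  have hv0 : v ≠ 0 := by rintro rfl; rw [map_zero] at hv; exact lt_irrefl _ hv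
  have hu0 : u ≠ 0 := by rintro rfl; rw [map_zero] at hu; exact lt_irrefl _ hu
  have huv : 0 < w (u + v) := by rw [map_add]; exact add_pos hu hv
  have huv0 : u + v ≠ 0 := by intro h; rw [h, map_zero] at huv; exact lt_irrefl _ huv
  have hc1 : (E u r).coeff (u + v) = 0 := by
    rw [E_coeff, if_neg huv0.symm, if_neg, add_zero]
    intro h
    apply hv0
    exact (left_eq_add).mp h
  have h1 := R_mul_E hF (E_U hu hr) hv hs (u + v)
  rw [add_sub_cancel_right, R_of_zero hF (E_U hu hr) hc1, zero_add] at h1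
  have h2 := R_eq hw hF ((E_U hu hr).mul (E_U hv hs)) huv
  rw [mul_E_coeff, hc1, add_sub_cancel_right, E_coeff, if_neg (Ne.symm hu0), if_pos rfl, zero_add,
    zero_add] at h2
  rw [← h2, h1]

theorem rho_lin (hw : Function.Injective w) (hF : Good F) {v : G} (hv : 0 < w v) {r : ℝ}
    (hr : 0 ≤ r) : R F (E v r) v = r * R F (E v 1) v := by
  classical
  have hv0 : v ≠ 0 := by rintro rfl; rw [map_zero] at hv; exact lt_irrefl _ hv
  set φ : ℝ → ℝ := fun r => R F (E v r) v with hφ
  have hadd : ∀ r s, 0 ≤ r → 0 ≤ s → φ (r + s) = φ r + φ s :=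
    fun r s hr hs => rho_add hw hF hv hr hs
  have hnn : ∀ r, 0 ≤ r → 0 ≤ φ r := fun r hr => R_nonneg hF (E_U hv hr) v
  have h00 : φ 0 = 0 := by
    have := hadd 0 0 le_rfl le_rfl
    rw [add_zero] at this
    linarith
  have hmono : ∀ r s, 0 ≤ r → r ≤ s → φ r ≤ φ s := by
    intro r s hr hrs
    have h1 := hadd r (s - r) hr (by linarith)
    rw [show r + (s - r) = s by ring] at h1
    rw [h1]
    linarith [hnn (s - r) (by linarith)]
  have hnat : ∀ (n : ℕ) (r : ℝ), 0 ≤ r → φ (n * r) = n * φ r := by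
    intro n r hr
    induction n with
    | zero => rw [Nat.cast_zero, zero_mul, zero_mul]; exact h00
    | succ n ih =>
      rw [Nat.cast_succ, add_mul, one_mul, hadd _ _ (by positivity) hr, ih]; ring
  have hbound : ∀ n : ℕ, |(n : ℝ) * (φ r - r * φ 1)| ≤ φ 1 := by
    intro n
    have hnr : (0 : ℝ) ≤ n * r := by positivity
    have hk1 := Nat.floor_le hnr
    have hk2 := Nat.lt_floor_add_one ((n : ℝ) * r)
    set k := ⌊(n : ℝ) * r⌋₊
    have e1 : φ k = k * φ 1 := by
      have := hnat k 1 zero_le_one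
      rwa [mul_one] at this
    have e2 : φ (k + 1) = (k + 1) * φ 1 := by
      rw [hadd _ _ (Nat.cast_nonneg k) zero_le_one, e1]; ring
    have i1 := hmono k (n * r) (Nat.cast_nonneg k) hk1
    have i2 := hmono (n * r) (k + 1) hnr hk2.le
    rw [e1] at i1
    rw [e2] at i2
    rw [hnat n r hr] at i1 i2
    have h1 := hnn 1 zero_le_one
    rw [abs_le]
    constructor
    · nlinarith
    · nlinarith
  have hzero : φ r - r * φ 1 = 0 := by
    by_contra hne
    have hpos : 0 < |φ r - r * φ 1| := abs_pos.mpr hne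
    obtain ⟨n, hn⟩ := exists_nat_gt (φ 1 / |φ r - r * φ 1|)
    rw [div_lt_iff₀ hpos] at hn
    have := hbound n
    rw [abs_mul, Nat.abs_cast] at this
    linarith
  show φ r = r * φ 1
  linarith

/-- the constants `c_v` -/
noncomputable def c (F : ℝ[G] → ℝ[G]) (v : G) : ℝ := R F (E v 1) v

theorem c_pos (hF : Good F) {v : G} (hv : 0 < w v) : 0 < c F v := by
  classical
  have hv0 : v ≠ 0 := by rintro rfl; rw [map_zero] at hv; exact lt_irrefl _ hv
  apply R_pos hF (E_U hv zero_le_one)
  rw [E_coeff, if_neg (Ne.symm hv0), if_pos rfl]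
  norm_num

theorem c_add (hw : Function.Injective w) (hF : Good F) {u v : G} (hu : 0 < w u)
    (hv : 0 < w v) : c F (u + v) = c F u * c F v := by
  have := rho_mul hw hF hu hv zero_le_one zero_le_one
  rwa [mul_one] at this

theorem R_main (hw : Function.Injective w) (hF : Good F) {p : ℝ[G]} (hp : U w p) {v : G}
    (hv : 0 < w v) : R F p v = p.coeff v * c F v := by
  rw [R_eq hw hF hp hv, rho_lin hw hF hv (hp.nn v), c]

end general

/-- an injective additive map `ℤ^d → ℝ` -/
theorem exists_w (d : ℕ) : ∃ w : (Fin d → ℤ) →+ ℝ, Function.Injective w ∧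
    ∀ i, 0 < w (Pi.single i 1) := by
  classical
  have htr := transcendental_liouvilleNumber (m := 2) le_rfl
  set α : ℝ := liouvilleNumber ((2 : ℕ) : ℝ) with hα
  have hpos : 0 < α := by
    have hs := LiouvilleNumber.summable (m := ((2 : ℕ) : ℝ)) (by norm_num)
    rw [hα, liouvilleNumber]
    refine hs.tsum_pos (fun i => by positivity) 0 (by positivity)
  refine ⟨{ toFun := fun x => ∑ i, (x i : ℝ) * α ^ (i : ℕ)
            map_zero' := by simp
            map_add' := fun x y => by
              rw [← Finset.sum_add_distrib]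
              apply Finset.sum_congr rfl
              intro i _
              rw [Pi.add_apply, Int.cast_add, add_mul] }, ?_, ?_⟩
  · rw [injective_iff_map_eq_zero]
    intro x hx
    change ∑ i, (x i : ℝ) * α ^ (i : ℕ) = 0 at hx
    let P : Polynomial ℤ := ∑ i : Fin d, Polynomial.monomial (i : ℕ) (x i)
    have h1 : Polynomial.aeval α P = 0 := by
      show Polynomial.aeval α (∑ i : Fin d, Polynomial.monomial (i : ℕ) (x i)) = 0
      rw [map_sum, ← hx]
      apply Finset.sum_congr rfl
      intro i _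
      rw [Polynomial.aeval_monomial]
      simp
    have h2 : P = 0 := by
      by_contra hne
      exact htr ⟨P, hne, h1⟩
    funext i
    have h3 : P.coeff (i : ℕ) = x i := by
      show (∑ j : Fin d, Polynomial.monomial (j : ℕ) (x j)).coeff (i : ℕ) = x i
      rw [Polynomial.finsetSum_coeff, Finset.sum_eq_single i]
      · rw [Polynomial.coeff_monomial, if_pos rfl]
      · intro j _ hj
        rw [Polynomial.coeff_monomial, if_neg]
        intro h
        exact hj (Fin.ext h)
      · intro h; exact absurd (Finset.mem_univ i) h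
    rw [← h3, h2]
    simp
  · intro i
    change 0 < ∑ j, (((Pi.single i 1 : Fin d → ℤ) j : ℤ) : ℝ) * α ^ (j : ℕ)
    rw [Finset.sum_eq_single i]
    · rw [Pi.single_eq_same]; simp; positivity
    · intro j _ hj
      rw [Pi.single_eq_of_ne hj]; simp
    · intro h; exact absurd (Finset.mem_univ i) h

variable {d : ℕ}

/-- total mass -/
noncomputable def tot (p : ℝ[Fin d → ℤ]) : ℝ := p.coeff.sum fun _ m => m

theorem tot_pos {p : ℝ[Fin d → ℤ]} (hp : Pos p) : 0 < tot p := by
  obtain ⟨hn, h0⟩ := hp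
  have : ∃ x, p.coeff x ≠ 0 := by
    by_contra hc
    push Not at hc
    apply h0
    ext x
    rw [hc x]; simp
  obtain ⟨x, hx⟩ := this
  rw [tot, Finsupp.sum]
  exact Finset.sum_pos' (fun y _ => hn y)
    ⟨x, Finsupp.mem_support_iff.mpr hx, lt_of_le_of_ne (hn x) hx.symm⟩

/-- normalisation -/
noncomputable def nrm (p : ℝ[Fin d → ℤ]) (hp : Pos p) : FinProb d where
  f := (tot p)⁻¹ • p.coeff
  nonneg x := by
    rw [Finsupp.smul_apply, smul_eq_mul]
    exact mul_nonneg (inv_nonneg.mpr (tot_pos hp).le) (hp.1 x)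
  total := by
    rw [Finsupp.sum_smul_index (fun _ => rfl), ← Finsupp.mul_sum]
    exact inv_mul_cancel₀ (tot_pos hp).ne'

theorem isConv_iff (μ ν ρ : FinProb d) :
    IsConv μ ν ρ ↔ (ofCoeff ρ.f : ℝ[Fin d → ℤ]) = ofCoeff μ.f * ofCoeff ν.f := by
  have h : ∀ x, ((ofCoeff μ.f : ℝ[Fin d → ℤ]) * ofCoeff ν.f).coeff x =
      μ.f.sum fun y m => m * ν.f (x - y) := by
    intro x
    rw [coeff_mul_apply_left, coeff_ofCoeff, coeff_ofCoeff]
    apply Finset.sum_congr rfl
    intro y _
    show μ.f y * ν.f (-y + x) = μ.f y * ν.f (x - y)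
    rw [show -y + x = x - y by abel]
  constructor
  · intro hc
    ext x
    rw [h x]
    exact hc x
  · intro he x
    rw [← h x, ← he]

theorem tot_mul (p q : ℝ[Fin d → ℤ]) : tot (p * q) = tot p * tot q := by
  have h : ∀ r : ℝ[Fin d → ℤ], tot r =
      AddMonoidAlgebra.lift ℝ ℝ (Fin d → ℤ) (1 : Multiplicative (Fin d → ℤ) →* ℝ) r := by
    intro r
    rw [AddMonoidAlgebra.lift_apply, tot]
    apply Finset.sum_congr rfl
    intro x _
    simp
  rw [h, h, h, map_mul]

/-- `Φ` as a map on polynomials -/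
noncomputable def FF (Φ : FinProb d → FinProb d) (p : ℝ[Fin d → ℤ]) : ℝ[Fin d → ℤ] :=
  open Classical in if h : Pos p then ofCoeff (Φ (nrm p h)).f else 0

theorem FF_eq (Φ : FinProb d → FinProb d) {p : ℝ[Fin d → ℤ]} (h : Pos p) :
    FF Φ p = ofCoeff (Φ (nrm p h)).f := by
  rw [FF, dif_pos h]

theorem Pos.mul {p q : ℝ[Fin d → ℤ]} (hp : Pos p) (hq : Pos q) : Pos (p * q) := by
  refine ⟨hp.1.mul hq.1, ?_⟩
  intro h
  have h1 := tot_mul p q
  rw [h] at h1
  have h2 : tot (0 : ℝ[Fin d → ℤ]) = 0 := by simp [tot]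
  rw [h2] at h1
  exact (mul_pos (tot_pos hp) (tot_pos hq)).ne h1

theorem good_FF {Φ : FinProb d → FinProb d} (hE : IsEndo Φ) (hS : IsSuppPres Φ) :
    Good (FF Φ) := by
  refine ⟨?_, ?_, ?_⟩
  · intro p q hp hq
    have hpq := hp.mul hq
    rw [FF_eq Φ hp, FF_eq Φ hq, FF_eq Φ hpq, ← isConv_iff]
    apply hE
    rw [isConv_iff]
    show (ofCoeff ((tot (p * q))⁻¹ • (p * q).coeff) : ℝ[Fin d → ℤ]) =
      ofCoeff ((tot p)⁻¹ • p.coeff) * ofCoeff ((tot q)⁻¹ • q.coeff)
    rw [ofCoeff_smul, ofCoeff_smul, ofCoeff_smul, ofCoeff_coeff, ofCoeff_coeff, ofCoeff_coeff,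
      smul_mul_smul_comm, tot_mul, mul_inv]
  · intro p hp x
    rw [FF_eq Φ hp]
    exact (Φ (nrm p hp)).nonneg x
  · intro p hp x
    rw [FF_eq Φ hp, coeff_ofCoeff, ← Finsupp.mem_support_iff, hS, Finsupp.mem_support_iff]
    show (tot p)⁻¹ • p.coeff x ≠ 0 ↔ _
    rw [smul_eq_mul]
    have := (tot_pos hp).ne'
    simp [this]

/-- Every support-preserving endomorphism of the convolution semigroup of the finitely supported
probability measures on `ℤ^d` is a Boltzmann reweighting. -/
theorem result (d : ℕ) (Φ : FinProb d → FinProb d) (hE : IsEndo Φ) (hS : IsSuppPres Φ) :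
    ∃ β : Fin d → ℝ, IsBoltzmann β Φ := by
  classical
  obtain ⟨w, hw, hwe⟩ := exists_w d
  have hF := good_FF hE hS
  set F := FF Φ with hFdef
  let β : Fin d → ℝ := fun i => -Real.log (c F (Pi.single i 1))
  let χ : (Fin d → ℤ) → ℝ := fun x => Real.exp (-∑ i, β i * x i)
  have hχpos : ∀ x, 0 < χ x := fun x => Real.exp_pos _
  have hχadd : ∀ x y, χ (x + y) = χ x * χ y := by
    intro x y
    show Real.exp _ = Real.exp _ * Real.exp _
    rw [← Real.exp_add]
    congr 1
    rw [← neg_add, ← Finset.sum_add_distrib]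
    congr 1
    apply Finset.sum_congr rfl
    intro i _
    rw [Pi.add_apply]; push_cast; ring
  have hχe : ∀ i, χ (Pi.single i 1) = c F (Pi.single i 1) := by
    intro i
    show Real.exp _ = _
    rw [Finset.sum_eq_single i]
    · rw [Pi.single_eq_same]
      show Real.exp (-(-Real.log (c F (Pi.single i 1)) * ((1 : ℤ) : ℝ))) = _
      rw [Int.cast_one, mul_one, neg_neg, Real.exp_log (c_pos hF (hwe i))]
    · intro j _ hj
      rw [Pi.single_eq_of_ne hj]; simp
    · intro h; exact absurd (Finset.mem_univ i) h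
  -- the set where `c = χ`
  let M : AddSubmonoid (Fin d → ℤ) :=
    { carrier := {x | x = 0 ∨ (0 < w x ∧ c F x = χ x)}
      zero_mem' := Or.inl rfl
      add_mem' := by
        rintro a b (ha | ha) (hb | hb)
        · left; rw [ha, hb, add_zero]
        · right; rw [ha, zero_add]; exact hb
        · right; rw [hb, add_zero]; exact ha
        · right
          refine ⟨by rw [map_add]; exact add_pos ha.1 hb.1, ?_⟩
          rw [c_add hw hF ha.1 hb.1, ha.2, hb.2, hχadd] }
  have hMe : ∀ i, (Pi.single i 1 : Fin d → ℤ) ∈ M := fun i => Or.inr ⟨hwe i, (hχe i).symm⟩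
  have hMnn : ∀ a : Fin d → ℤ, (∀ i, 0 ≤ a i) → a ∈ M := by
    intro a ha
    have h1 : a = ∑ i, (a i).toNat • (Pi.single i 1 : Fin d → ℤ) := by
      funext j
      rw [Finset.sum_apply, Finset.sum_eq_single j]
      · rw [Pi.smul_apply, Pi.single_eq_same, nsmul_eq_mul, mul_one]
        exact (Int.toNat_of_nonneg (ha j)).symm
      · intro i _ hij
        rw [Pi.smul_apply, Pi.single_eq_of_ne hij.symm, smul_zero]
      · intro h; exact absurd (Finset.mem_univ j) h
    rw [h1]
    exact M.sum_mem fun i _ => M.nsmul_mem (hMe i) _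
  have hcχ : ∀ v, 0 < w v → c F v = χ v := by
    intro v hv
    have hv0 : v ≠ 0 := by rintro rfl; rw [map_zero] at hv; exact lt_irrefl _ hv
    obtain ⟨i0, hi0⟩ : ∃ i, v i ≠ 0 := by
      by_contra hc
      push Not at hc
      exact hv0 (funext hc)
    let b : Fin d → ℤ := fun i => |v i| + 1
    have hb : ∀ i, 0 ≤ b i := fun i => by positivity
    have hb0 : b ≠ 0 := by
      intro h
      have := congrFun h i0
      change |v i0| + 1 = 0 at this
      have h2 := abs_nonneg (v i0)
      omega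
    have ha : ∀ i, 0 ≤ (v + b) i := fun i => by
      show 0 ≤ v i + (|v i| + 1)
      have := neg_abs_le (v i)
      omega
    have hbM := hMnn b hb
    have haM := hMnn (v + b) ha
    rcases hbM with hbM | hbM
    · exact absurd hbM hb0
    have hwab : 0 < w (v + b) := by rw [map_add]; exact add_pos hv hbM.1
    rcases haM with haM | haM
    · rw [haM, map_zero] at hwab; exact absurd hwab (lt_irrefl _)
    have h1 := c_add hw hF hv hbM.1
    rw [haM.2, hχadd, hbM.2] at h1
    exact (mul_right_cancel₀ (hχpos b).ne' h1).symm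
  refine ⟨β, fun μ x => ?_⟩
  -- the polynomial of `μ`
  set p : ℝ[Fin d → ℤ] := ofCoeff μ.f with hp
  have hpc : ∀ y, p.coeff y = μ.f y := fun _ => rfl
  have hne : μ.f.support.Nonempty := by
    rw [Finsupp.support_nonempty_iff]
    intro h
    have := μ.total
    rw [h] at this
    simp at this
  have hpP : Pos p := by
    refine ⟨μ.nonneg, ?_⟩
    intro h
    obtain ⟨y, hy⟩ := hne
    rw [Finsupp.mem_support_iff] at hy
    apply hy
    rw [← hpc, h]; simp
  have hnrm : nrm p hpP = μ := by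
    have h1 : (nrm p hpP).f = μ.f := by
      show (tot p)⁻¹ • p.coeff = μ.f
      have : tot p = 1 := μ.total
      rw [this, inv_one, one_smul]
    cases hμ : μ
    cases hn : nrm p hpP
    rw [hμ, hn] at h1
    simp only at h1
    subst h1
    rfl
  have hFp : F p = ofCoeff (Φ μ).f := by
    rw [hFdef, FF_eq Φ hpP, hnrm]
  obtain ⟨x0, hx0, hmin⟩ := μ.f.support.exists_min_image (fun y => w y) hne
  rw [Finsupp.mem_support_iff] at hx0
  have hx0pos : 0 < μ.f x0 := lt_of_le_of_ne (μ.nonneg x0) hx0.symm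
  -- translate to the origin
  set t : ℝ[Fin d → ℤ] := single (-x0) (μ.f x0)⁻¹ with ht
  have htP : Pos t := by
    refine ⟨fun y => ?_, ?_⟩
    · rw [ht, coeff_single, Finsupp.single_apply]
      split_ifs
      · exact inv_nonneg.mpr hx0pos.le
      · exact le_refl _
    · rw [ht]
      exact single_ne_zero.mpr (inv_ne_zero hx0)
  have hptc : ∀ y, (p * t).coeff y = μ.f (y + x0) * (μ.f x0)⁻¹ := by
    intro y
    rw [ht, coeff_mul_single_apply, neg_neg, hpc]
  have hU : U w (p * t) := by
    refine ⟨hpP.1.mul htP.1, ?_, ?_⟩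
    · rw [hptc, zero_add, mul_inv_cancel₀ hx0]
    · intro y hy hy0
      rw [hptc] at hy
      have h1 : μ.f (y + x0) ≠ 0 := by
        intro h; rw [h, zero_mul] at hy; exact hy rfl
      have h2 := hmin (y + x0) (Finsupp.mem_support_iff.mpr h1)
      simp only [map_add] at h2
      have h3 : 0 ≤ w y := by linarith
      rcases eq_or_lt_of_le h3 with h4 | h4
      · exfalso
        apply hy0
        apply hw
        rw [← h4, map_zero]
      · exact h4
  have hFt : F t = single (-x0) ((F t).coeff (-x0)) := by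
    ext y
    rw [coeff_single, Finsupp.single_apply]
    split_ifs with h
    · rw [h]
    · by_contra hc
      have := (hF.supp t htP y).mp hc
      rw [ht, coeff_single, Finsupp.single_apply, if_neg h] at this
      exact this rfl
  set s := (F t).coeff (-x0) with hs
  have hs0 : s ≠ 0 := by
    rw [hs, hF.supp t htP, ht, coeff_single, Finsupp.single_eq_same]
    exact inv_ne_zero hx0
  have hFpt : ∀ y, (F (p * t)).coeff y = (Φ μ).f (y + x0) * s := by
    intro y
    rw [hF.mul p t hpP htP, hFt, hFp, coeff_mul_single_apply, neg_neg, coeff_ofCoeff]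
  have hΦ0 : (Φ μ).f x0 ≠ 0 := by
    rw [← Finsupp.mem_support_iff, hS, Finsupp.mem_support_iff]; exact hx0
  have hmain : ∀ y, (Φ μ).f y = ((Φ μ).f x0 / (μ.f x0 * χ x0)) * (μ.f y * χ y) := by
    intro y
    by_cases hy : μ.f y = 0
    · have : (Φ μ).f y = 0 := by
        rw [← Finsupp.notMem_support_iff, hS, Finsupp.notMem_support_iff]; exact hy
      rw [this, hy]; ring
    by_cases hyx : y = x0
    · rw [hyx]
      field_simp [hx0, (hχpos x0).ne']
    · have hwv : 0 < w (y - x0) := by
        have h2 : w x0 ≤ w y := hmin y (Finsupp.mem_support_iff.mpr hy)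
        have h3 : 0 ≤ w (y - x0) := by rw [map_sub]; linarith
        rcases eq_or_lt_of_le h3 with h4 | h4
        · exfalso
          apply hyx
          have : y - x0 = 0 := by
            apply hw
            rw [← h4, map_zero]
          exact sub_eq_zero.mp this
        · exact h4
      have h1 := R_main hw hF hU hwv
      rw [R, hFpt, hFpt, hptc, sub_add_cancel, zero_add, hcχ _ hwv] at h1
      have h2 : χ y = χ (y - x0) * χ x0 := by rw [← hχadd, sub_add_cancel]
      rw [h2]
      have h3 : (Φ μ).f y / (Φ μ).f x0 = μ.f y * (μ.f x0)⁻¹ * χ (y - x0) := by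
        rw [← h1]
        field_simp
      have h4 := (hχpos x0).ne'
      rw [div_eq_iff hΦ0] at h3
      rw [h3]
      field_simp
  set κ := (Φ μ).f x0 / (μ.f x0 * χ x0) with hκ
  have hsum : κ * (μ.f.sum fun y m => m * χ y) = 1 := by
    rw [← (Φ μ).total, Finsupp.sum, Finsupp.sum, Finset.mul_sum, hS μ]
    apply Finset.sum_congr rfl
    intro y _
    exact (hmain y).symm
  have hZ : (μ.f.sum fun y m => m * χ y) ≠ 0 := by
    intro h; rw [h, mul_zero] at hsum; exact zero_ne_one hsum
  rw [hmain x]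
  show κ * (μ.f x * χ x) = μ.f x * χ x / (μ.f.sum fun y m => m * χ y)
  rw [eq_div_iff hZ]
  calc κ * (μ.f x * χ x) * (μ.f.sum fun y m => m * χ y)
      = (μ.f x * χ x) * (κ * (μ.f.sum fun y m => m * χ y)) := by ring
    _ = μ.f x * χ x := by rw [hsum, mul_one]

end Pool.Agent.Results.MP_847c7e_pr.Boltzmann
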